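import Pool.Agent.Lib.MP_88d9d7_lc.Main

namespace Pool.Agent.Results.MP_88d9d7_lc.Complete

open Pool.Agent.Lib.MP_88d9d7_lc

theorem result (Δ : ℕ) (hΔ : 3 ≤ Δ) :
    Sigma12 (classA Δ) ∧ ∀ B : Set (ℕ → Bool), Sigma12 B →
      ∃ f : (ℕ → Bool) → (ℕ → ℕ), Measurable f ∧
        ∀ x, f x ∈ classC Δ ∧ (x ∈ B ↔ f x ∈ classA Δ) :=
  ⟨sigma12_classA Δ, fun _ hB => hard hΔ hB⟩

end Pool.Agent.Results.MP_88d9d7_lc.Complete
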