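import Pool.Agent.Lib.MP_88d9d7_lc.Ins.Final

namespace Pool.Agent.Results.MP_88d9d7_lc.Matching

open Pool.Agent.Lib.MP_88d9d7_lc

theorem result (Δ : ℕ) (hΔ : 3 ≤ Δ) : CompleteIn (classC Δ) (classP Δ BorelMatching) := by
  obtain ⟨n, rfl⟩ : ∃ n, Δ = n + 3 := ⟨Δ - 3, by omega⟩
  exact complete_match n

end Pool.Agent.Results.MP_88d9d7_lc.Matching
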